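import Mathlib
import Pool.Agent.W757.RD.End

/-! The distance of a rational map to the hyperbolic rational maps of the same degree is locally at
most a constant times any power with exponent less than `1 / 2` of the area of its Julia set
(together with the preimages of Herman rings). -/

set_option autoImplicit false

open Topology Filter MeasureTheory Metric

namespace Pool.Agent.Results.MP_8f2e1c_an.AreaDistance

/-- `f` is the rational map `P / Q` on the Riemann sphere. -/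
def IsRationalMap (P Q : Polynomial ℂ) (f : OnePoint ℂ → OnePoint ℂ) : Prop :=
  Continuous f ∧ ∀ z : ℂ, Q.eval z ≠ 0 →
    f (OnePoint.some z) = OnePoint.some (P.eval z / Q.eval z)

/-- `a` is a point of an attracting cycle of `f` whose period divides `n`: `f^n` fixes `a` and the
iterates of `f^n` converge to `a` uniformly on a neighbourhood of `a`. -/
def IsSink (f : OnePoint ℂ → OnePoint ℂ) (n : ℕ) (a : OnePoint ℂ) : Prop :=
  0 < n ∧ f^[n] a = a ∧
    ∃ U ∈ nhds a, ∀ V ∈ nhds a, ∀ᶠ k : ℕ in Filter.atTop, ∀ w ∈ U, f^[n * k] w ∈ V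

/-- `z` is in the basin of an attracting cycle of `f`. -/
def Attracted (f : OnePoint ℂ → OnePoint ℂ) (z : OnePoint ℂ) : Prop :=
  ∃ (n : ℕ) (a : OnePoint ℂ), IsSink f n a ∧
    Filter.Tendsto (fun k : ℕ => f^[n * k] z) Filter.atTop (nhds a)

/-- A local coordinate at the point `a` of the sphere, with `chart a 0 = a`: for `a = ∞` it is
`w ↦ 1 / w`, and for a point `a` of the plane it is `w ↦ a + w`. -/
noncomputable def chart (a : OnePoint ℂ) (w : ℂ) : OnePoint ℂ :=
  match a with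
  | none => open Classical in if w = 0 then OnePoint.infty else OnePoint.some w⁻¹
  | some a => OnePoint.some (a + w)

/-- `f^p` fixes `a`, with multiplier `ρ` (the derivative of `f^p` at `a` in the local
coordinate). -/
def HasMultiplier (f : OnePoint ℂ → OnePoint ℂ) (p : ℕ) (a : OnePoint ℂ) (ρ : ℂ) : Prop :=
  ∃ g : ℂ → ℂ, g 0 = 0 ∧ HasDerivAt g ρ 0 ∧
    ∀ᶠ w in nhds (0 : ℂ), f^[p] (chart a w) = chart a (g w)

/-- `z` is in the basin of a parabolic cycle: for some `p` the points `f^(p k) (z)` converge to a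
fixed point `a` of `f^p` of multiplier `1`, and are different from `a`. -/
def ParabolicBasin (f : OnePoint ℂ → OnePoint ℂ) (z : OnePoint ℂ) : Prop :=
  ∃ (p : ℕ) (a : OnePoint ℂ), 0 < p ∧ HasMultiplier f p a 1 ∧
    Filter.Tendsto (fun k : ℕ => f^[p * k] z) Filter.atTop (nhds a) ∧ ∀ k : ℕ, f^[p * k] z ≠ a

/-- `h` is a holomorphic map from the disc of radius `r` to the sphere. -/
def HolomorphicOnDisc (h : ℂ → OnePoint ℂ) (r : ℝ) : Prop :=
  ∀ w₀ ∈ ball (0 : ℂ) r, ∃ g : ℂ → ℂ, AnalyticAt ℂ g w₀ ∧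
    ∀ᶠ w in nhds w₀, h w = chart (h w₀) (g w)

/-- `z` is mapped by some iterate of `f` into a Siegel disc: an injective holomorphic map `h` of a
disc to the sphere conjugates `f^p` to an irrational rotation. -/
def SiegelBasin (f : OnePoint ℂ → OnePoint ℂ) (z : OnePoint ℂ) : Prop :=
  ∃ (n p : ℕ) (r : ℝ) (ρ : ℂ) (h : ℂ → OnePoint ℂ), 0 < p ∧ 0 < r ∧ ‖ρ‖ = 1 ∧
    (∀ m : ℕ, 0 < m → ρ ^ m ≠ 1) ∧ HolomorphicOnDisc h r ∧ Set.InjOn h (ball 0 r) ∧
    (∀ w ∈ ball (0 : ℂ) r, f^[p] (h w) = h (ρ * w)) ∧ f^[n] z ∈ h '' ball 0 r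

/-- The points of the plane which are not in the basin of an attracting or parabolic cycle and are
not mapped into a Siegel disc. By the classification of the Fatou components this is the part in
the plane of the union of the Julia set and the preimages of the Herman rings. -/
def JuliaHerman (f : OnePoint ℂ → OnePoint ℂ) : Set ℂ :=
  {z : ℂ | ¬ Attracted f (OnePoint.some z) ∧ ¬ ParabolicBasin f (OnePoint.some z) ∧
    ¬ SiegelBasin f (OnePoint.some z)}

/-- Spherical area. -/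
noncomputable def sphericalArea (E : Set ℂ) : ENNReal :=
  ∫⁻ z in E, ENNReal.ofReal (1 / (1 + ‖z‖ ^ 2) ^ 2)

/-- `P / Q` is hyperbolic: word for word the condition of the frozen statement S05373. -/
def Hyperbolic (P Q : Polynomial ℂ) : Prop :=
  ∃ f : OnePoint ℂ → OnePoint ℂ, Continuous f ∧
    (∀ z : ℂ, Q.eval z ≠ 0 →
      f (OnePoint.some z) = OnePoint.some (P.eval z / Q.eval z)) ∧
    ∀ c : OnePoint ℂ, (¬ ∃ U ∈ nhds c, Set.InjOn f U) →
      ∃ z : OnePoint ℂ, ∃ n : ℕ, 0 < n ∧ f^[n] z = z ∧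
        (∃ U ∈ nhds z, ∀ w ∈ U,
          Filter.Tendsto (fun k : ℕ => f^[n * k] w) Filter.atTop (nhds z)) ∧
        Filter.Tendsto (fun k : ℕ => f^[n * k] c) Filter.atTop (nhds z)

open Pool.Agent.H790R3.RB in
/-- Let `d ≥ 2`, let `0 < γ < 1 / 2` and let `P₀ / Q₀` be a rational map of degree `d`. There are
`C` and `δ > 0` such that for every rational map `f = P / Q` of degree `d` with coefficients at
distance less than `δ` from those of `P₀ / Q₀`, and every `a` which is larger than the spherical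
area of the union of the Julia set of `f` and the preimages of the Herman rings of `f`, there is a
hyperbolic rational map `P' / Q'` of degree `d` with coefficients at distance at most `C a ^ γ` from
those of `P / Q`. In particular `f` is a limit of hyperbolic rational maps of degree `d` if this
area is zero. -/
theorem result (d : ℕ) (hd : 2 ≤ d) (γ : ℝ) (hγ : 0 < γ) (hγ2 : γ < 1 / 2) (P₀ Q₀ : Polynomial ℂ)
    (hPQ : IsCoprime P₀ Q₀) (hdeg : max P₀.natDegree Q₀.natDegree = d) :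
    ∃ C δ : ℝ, 0 < C ∧ 0 < δ ∧
      ∀ (P Q : Polynomial ℂ) (f : OnePoint ℂ → OnePoint ℂ), IsCoprime P Q →
        max P.natDegree Q.natDegree = d →
        (∀ i : ℕ, ‖P.coeff i - P₀.coeff i‖ < δ ∧ ‖Q.coeff i - Q₀.coeff i‖ < δ) →
        IsRationalMap P Q f →
        ∀ a : ℝ, sphericalArea (JuliaHerman f) < ENNReal.ofReal a →
          ∃ P' Q' : Polynomial ℂ, IsCoprime P' Q' ∧ max P'.natDegree Q'.natDegree = d ∧
            (∀ i : ℕ, ‖P'.coeff i - P.coeff i‖ ≤ C * a ^ γ ∧
              ‖Q'.coeff i - Q.coeff i‖ ≤ C * a ^ γ) ∧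
            Hyperbolic P' Q' := by
  have hd1 : 1 ≤ d := by omega
  obtain ⟨h1, h2⟩ := PQ SP d hd1
  obtain ⟨x₀, hnd0, hx0, hx1, -⟩ := h2 P₀ Q₀ hPQ hdeg
  obtain ⟨-, -, hco0, -, -⟩ := h1 x₀ hnd0
  obtain ⟨C, δ, hC, hδ, H⟩ := Pool.Agent.W757.RD.main γ d x₀ hγ hγ2 hd hnd0
  refine ⟨C, δ, hC, hδ, fun P Q f hc hm hclose hf a ha => ?_⟩
  obtain ⟨y, hyn, hyP, hyQ, hfe⟩ := h2 P Q hc hm
  have hfy : f = sp y := hfe f hf.1 hf.2
  obtain ⟨-, -, hcoy, hhiy, -⟩ := h1 y hyn
  have ha0 : 0 < a := by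
    by_contra h
    rw [ENNReal.ofReal_of_nonpos (not_lt.1 h)] at ha
    exact absurd ha not_lt_zero
  have hy : ‖y - x₀‖ < δ := by
    rw [pi_norm_lt_iff hδ]
    rintro ⟨i, j⟩
    have e1 := hcoy i j
    have e2 := hco0 i j
    rw [Pi.sub_apply, ← e1, ← e2]
    fin_cases i
    · show ‖(pol y 0).coeff (j : ℕ) - (pol x₀ 0).coeff (j : ℕ)‖ < δ
      rw [hyP, hx0]; exact (hclose j).1
    · show ‖(pol y 1).coeff (j : ℕ) - (pol x₀ 1).coeff (j : ℕ)‖ < δ
      rw [hyQ, hx1]; exact (hclose j).2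
  obtain ⟨x, hx, hxnd, hhyp⟩ := H y hyn hy a ha0 (by
    rw [← hfy]
    exact ha)
  obtain ⟨hcop, hmax, hco, hhi, hev⟩ := h1 x hxnd
  have hcoef : ∀ i : Fin 2, ∀ j : ℕ, ‖(pol x i).coeff j - (pol y i).coeff j‖ ≤ C * a ^ γ := by
    intro i j
    have hpos : 0 ≤ C * a ^ γ := mul_nonneg hC.le (Real.rpow_nonneg ha0.le _)
    by_cases hj : d < j
    · rw [hhi i j hj, hhiy i j hj, sub_zero, norm_zero]; exact hpos
    · have e1 := hco i ⟨j, by omega⟩
      have e2 := hcoy i ⟨j, by omega⟩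
      simp only at e1 e2
      rw [e1, e2]
      exact (norm_le_pi_norm (x - y) (i, ⟨j, by omega⟩)).trans hx
  refine ⟨pol x 0, pol x 1, hcop, hmax, fun i => ⟨?_, ?_⟩, sp x, (SP d x hd1 hxnd).1, hev, hhyp⟩
  · rw [← hyP]; exact hcoef 0 i
  · rw [← hyQ]; exact hcoef 1 i

end Pool.Agent.Results.MP_8f2e1c_an.AreaDistance
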