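import Mathlib
import Pool.Agent.W739.RC.Cnt

/-! Every rational map has, for every large `p`, arbitrarily small perturbations whose composition
is hyperbolic. -/

set_option autoImplicit false

open Topology Filter MeasureTheory Polynomial

namespace Pool.Agent.Results.MP_8f2e1c_an.HyperbolicCompositions

/-- `f` is the rational map `P / Q`, in lowest terms and of degree `d`, on the Riemann sphere. -/
def IsRationalMap (d : ℕ) (P Q : ℂ[X]) (f : OnePoint ℂ → OnePoint ℂ) : Prop :=
  IsCoprime P Q ∧ max P.natDegree Q.natDegree = d ∧ Continuous f ∧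
    ∀ z : ℂ, Q.eval z ≠ 0 → f (OnePoint.some z) = OnePoint.some (P.eval z / Q.eval z)

/-- All critical points of `g` (points where `g` is not locally injective) are attracted by
attracting cycles: word for word the condition of the frozen statement S05373. -/
def Hyperbolic (g : OnePoint ℂ → OnePoint ℂ) : Prop :=
  ∀ c : OnePoint ℂ, (¬ ∃ U ∈ nhds c, Set.InjOn g U) →
    ∃ z : OnePoint ℂ, ∃ n : ℕ, 0 < n ∧ g^[n] z = z ∧
      (∃ U ∈ nhds z, ∀ w ∈ U,
        Filter.Tendsto (fun k : ℕ => g^[n * k] w) Filter.atTop (nhds z)) ∧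
      Filter.Tendsto (fun k : ℕ => g^[n * k] c) Filter.atTop (nhds z)

/-- The composition `f (p - 1) ∘ ... ∘ f 1 ∘ f 0`. -/
def composition : (p : ℕ) → (Fin p → OnePoint ℂ → OnePoint ℂ) → OnePoint ℂ → OnePoint ℂ
  | 0, _ => id
  | p + 1, f => f (Fin.last p) ∘ composition p (fun k => f k.castSucc)

/-- The numerator of the composition of `P / Q` with the Möbius transformation of matrix `m`. -/
noncomputable def num (m : Fin 2 → Fin 2 → ℂ) (P Q : ℂ[X]) : ℂ[X] := C (m 0 0) * P + C (m 0 1) * Q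

/-- The denominator of the composition of `P / Q` with the Möbius transformation of matrix `m`. -/
noncomputable def den (m : Fin 2 → Fin 2 → ℂ) (P Q : ℂ[X]) : ℂ[X] := C (m 1 0) * P + C (m 1 1) * Q

/-- `p` matrices at distance less than `ε` from the identity matrix -/
def Close (p : ℕ) (ε : ℝ) (m : Fin p → Fin 2 → Fin 2 → ℂ) : Prop :=
  ∀ k i j, ‖m k i j - (if i = j then 1 else 0)‖ < ε

/-- The maps `f k = m k ∘ (P / Q)`, for `k = 0, ..., p - 1`, are rational maps of degree `d` and
their composition is hyperbolic. -/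
def HyperbolicComposition (d : ℕ) (P Q : ℂ[X]) (p : ℕ) (m : Fin p → Fin 2 → Fin 2 → ℂ) : Prop :=
  ∃ f : Fin p → OnePoint ℂ → OnePoint ℂ,
    (∀ k, IsRationalMap d (num (m k) P Q) (den (m k) P Q) (f k)) ∧ Hyperbolic (composition p f)

open Pool.Agent.H790R3.RB Pool.Agent.W739.RC in
theorem bridge {d : ℕ} (hd : 1 ≤ d) {x : CV d} (hx : ND x) {M : E2} (hM : dt M ≠ 0) :
    IsRationalMap d (num M (pol x 0) (pol x 1)) (den M (pol x 0) (pol x 1)) (sp (mx M x)) := by
  have hpol : ∀ i : Fin 2, pol (mx M x) i = C (M i 0) * pol x 0 + C (M i 1) * pol x 1 := by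
    intro i
    unfold pol mx
    simp only [Finset.mul_sum, ← Finset.sum_add_distrib]
    refine Finset.sum_congr rfl fun j _ => ?_
    rw [← C_mul_X_pow_eq_monomial, ← C_mul_X_pow_eq_monomial, ← C_mul_X_pow_eq_monomial, C_add,
      C_mul, C_mul]
    ring
  have hnd := nd_mx hM hx
  obtain ⟨h1, h2, -, -, h3⟩ := (PQ SP d hd).1 (mx M x) hnd
  have e0 : num M (pol x 0) (pol x 1) = pol (mx M x) 0 := (hpol 0).symm
  have e1 : den M (pol x 0) (pol x 1) = pol (mx M x) 1 := (hpol 1).symm
  rw [e0, e1]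
  exact ⟨h1, h2, SP.sp_cont hnd, h3⟩

open Pool.Agent.H790R3.RB Pool.Agent.W739.RC in
theorem comp_eq {d : ℕ} (x : CV d) (p : ℕ) (m : Fin p → E2) :
    composition p (fun k => sp (mx (m k) x)) = Sg x (List.ofFn m) := by
  induction p with
  | zero => rfl
  | succ p ih =>
    funext z
    rw [List.ofFn_succ', List.concat_eq_append, Sg_append]
    show sp (mx (m (Fin.last p)) x) (composition p (fun k => sp (mx (m k.castSucc) x)) z) = _
    rw [ih]
    rfl

open Pool.Agent.W739.RC in
theorem Bl_mono {ε ε' : ℝ} (h : ε ≤ ε') : Bl ε ⊆ Bl ε' := fun _ hM => lt_of_lt_of_le hM h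

open Pool.Agent.H790R3.RB Pool.Agent.W739.RC in
theorem close_iff {p : ℕ} {ε : ℝ} (hε : 0 < ε) (m : Fin p → E2) :
    Close p ε m ↔ ∀ k, m k ∈ Bl ε := by
  unfold Close Bl
  refine forall_congr' fun k => ?_
  rw [Set.mem_ofPred_eq, pi_norm_lt_iff hε]
  refine forall_congr' fun i => ?_
  rw [pi_norm_lt_iff hε]
  rfl

open Pool.Agent.H790R3.RB Pool.Agent.W739.RC in
/-- Let `P / Q` be a rational map of degree `d ≥ 2` in lowest terms and let `ε > 0`. For every
sufficiently large `p` there are `p` Möbius transformations `m k` with matrices at distance less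
than `ε` from the identity matrix, such that the maps `m k ∘ (P / Q)` are rational maps of degree
`d` with coefficients at distance less than `ε` from those of `P / Q`, and such that the composition
of these `p` maps is hyperbolic. -/
theorem result (d : ℕ) (hd : 2 ≤ d) (P Q : ℂ[X]) (hPQ : IsCoprime P Q)
    (hdeg : max P.natDegree Q.natDegree = d) (ε : ℝ) (hε : 0 < ε) :
    ∃ p₀ : ℕ, ∀ p ≥ p₀, ∃ m : Fin p → Fin 2 → Fin 2 → ℂ, Close p ε m ∧
      (∀ k i, ‖(num (m k) P Q).coeff i - P.coeff i‖ < ε ∧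
        ‖(den (m k) P Q).coeff i - Q.coeff i‖ < ε) ∧ HyperbolicComposition d P Q p m := by
  have hd1 : 1 ≤ d := by omega
  obtain ⟨x, hx, hx0, hx1, -⟩ := (PQ SP d hd1).2 P Q hPQ hdeg
  have hyp : ∀ (p : ℕ) (m : Fin p → E2), (∀ k, m k ∈ Bl (1 / 2)) → HypTop (Sg x (List.ofFn m)) →
      HyperbolicComposition d P Q p m := by
    intro p m hm h
    refine ⟨fun k => sp (mx (m k) x), fun k => ?_, ?_⟩
    · have := bridge hd1 hx (dt_ne (hm k))
      rwa [hx0, hx1] at this
    · rw [comp_eq]
      exact h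
  -- a bound for the coefficients
  obtain ⟨K, hK0, hK⟩ : ∃ K : ℝ, 0 ≤ K ∧ ∀ i, ‖P.coeff i‖ ≤ K ∧ ‖Q.coeff i‖ ≤ K := by
    refine ⟨‖x‖, norm_nonneg _, fun i => ?_⟩
    obtain ⟨-, -, hco, hhi, -⟩ := (PQ SP d hd1).1 x hx
    have key : ∀ j : Fin 2, ‖(pol x j).coeff i‖ ≤ ‖x‖ := by
      intro j
      by_cases hi : d < i
      · rw [hhi j i hi, norm_zero]; exact norm_nonneg _
      · have e1 := hco j ⟨i, by omega⟩
        simp only at e1
        rw [e1]
        exact norm_le_pi_norm x _
    exact ⟨hx0 ▸ key 0, hx1 ▸ key 1⟩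
  set ε' : ℝ := min (min ε (1 / 2)) (ε / (2 * K + 1)) with hε'
  have hpos : 0 < 2 * K + 1 := by linarith
  have hε'0 : 0 < ε' := lt_min (lt_min hε (by norm_num)) (div_pos hε hpos)
  obtain ⟨p₀, hp₀⟩ := exist_all hd hx hε'0
  refine ⟨p₀, fun p hp => ?_⟩
  obtain ⟨w, hw, rfl, hyw⟩ := hp₀ p hp
  have hmem : ∀ k : Fin w.length, w.get k ∈ Bl ε' := fun k => hw _ (List.get_mem _ _)
  refine ⟨fun k => w.get k, ?_, ?_, ?_⟩
  · rw [close_iff hε]
    exact fun k => Bl_mono ((min_le_left _ _).trans (min_le_left _ _)) (hmem k)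
  · intro k i
    have h1 : ∀ a b : Fin 2, ‖w.get k a b - (if a = b then 1 else 0)‖ ≤ ε / (2 * K + 1) := by
      intro a b
      have h2 : ‖w.get k - I2‖ ≤ ε / (2 * K + 1) := (le_of_lt (hmem k)).trans (min_le_right _ _)
      exact (norm_le_pi_norm ((w.get k - I2) a) b).trans
        ((norm_le_pi_norm (w.get k - I2) a).trans h2)
    have h00 := h1 0 0
    have h01 := h1 0 1
    have h10 := h1 1 0
    have h11 := h1 1 1
    simp only [if_true, Fin.isValue, zero_ne_one, one_ne_zero, if_false, sub_zero] at h00 h01 h10 h11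
    have hKi := hK i
    have hlt : ε / (2 * K + 1) * K + ε / (2 * K + 1) * K < ε := by
      have : ε / (2 * K + 1) * K + ε / (2 * K + 1) * K = ε * (2 * K / (2 * K + 1)) := by
        field_simp
        ring
      rw [this]
      have h3 : 2 * K / (2 * K + 1) < 1 := by rw [div_lt_one hpos]; linarith
      nlinarith
    constructor
    · have e : (num (w.get k) P Q).coeff i - P.coeff i =
          (w.get k 0 0 - 1) * P.coeff i + w.get k 0 1 * Q.coeff i := by
        unfold num
        rw [coeff_add, coeff_C_mul, coeff_C_mul]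
        ring
      rw [e]
      refine lt_of_le_of_lt (norm_add_le _ _) (lt_of_le_of_lt ?_ hlt)
      rw [norm_mul, norm_mul]
      have := hKi.1
      have := hKi.2
      gcongr
    · have e : (den (w.get k) P Q).coeff i - Q.coeff i =
          w.get k 1 0 * P.coeff i + (w.get k 1 1 - 1) * Q.coeff i := by
        unfold den
        rw [coeff_add, coeff_C_mul, coeff_C_mul]
        ring
      rw [e]
      refine lt_of_le_of_lt (norm_add_le _ _) (lt_of_le_of_lt ?_ hlt)
      rw [norm_mul, norm_mul]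
      have := hKi.1
      have := hKi.2
      gcongr
  · apply hyp
    · exact fun k => Bl_mono ((min_le_left _ _).trans (min_le_right _ _)) (hmem k)
    · rw [List.ofFn_get]
      exact hyw

end Pool.Agent.Results.MP_8f2e1c_an.HyperbolicCompositions
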