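import Mathlib
import Pool.Agent.W751.RV.Fin
import Pool.Agent.W751.RV.Den
import Pool.Agent.W349.CD.NU
import Pool.Agent.W349.CV.And
import Pool.Agent.W349.CV.Had
import Pool.Agent.W366.CV.Gram
import Pool.Agent.W797.CV.ZN
import Pool.Agent.W82.CV.L2
import Pool.Agent.W156.CV.NegIn
import Pool.Agent.W327.CV.Poly
import Pool.Agent.W515.CV.Area
import Pool.Agent.W15.CV.CB
import Pool.Agent.W293.CV.Jac
import Pool.Agent.W32.CV.Piw
import Pool.Agent.W293.CV.Sup
import Pool.Agent.W778.CV.NegOut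
import Pool.Agent.W253.CV.Coef
import Pool.Agent.W29.RV.QE
import Pool.Agent.W135.RV.W
import Pool.Agent.W440.RV.Nq
import Pool.Agent.W74.RV.SQ
import Pool.Agent.W366.RV.Sm
import Pool.Agent.W641.RV.Coef2
import Pool.Agent.W191.RV.Meas2
import Pool.Agent.W216.RV.UQ
import Pool.Agent.W216.RV.SF
import Pool.Agent.W216.RV.LC
import Pool.Agent.W308.RV.DETA
import Pool.Agent.W469.RV.Det

/-!
# The volume of the non-hyperbolic rational maps with zeros in a disc and poles outside a larger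
concentric disc is exponentially small
-/

set_option autoImplicit false

open Polynomial Filter Topology MeasureTheory

namespace Pool.Agent.Results.MP_8f2e1c_an.RationalVolume

/-- `P / Q` is in lowest terms and every critical point (point of the Riemann sphere where the map
is not locally injective) has an orbit converging to an attracting periodic cycle. This is word
for word the condition of the frozen statement `S05373`. -/
def Hyperbolic (P Q : Polynomial ℂ) : Prop :=
  IsCoprime P Q ∧ ∃ f : OnePoint ℂ → OnePoint ℂ, Continuous f ∧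
    (∀ z : ℂ, Q.eval z ≠ 0 →
      f (OnePoint.some z) = OnePoint.some (P.eval z / Q.eval z)) ∧
    ∀ c : OnePoint ℂ, (¬ ∃ U ∈ nhds c, Set.InjOn f U) →
      ∃ z : OnePoint ℂ, ∃ n : ℕ, 0 < n ∧ f^[n] z = z ∧
        (∃ U ∈ nhds z, ∀ w ∈ U,
          Filter.Tendsto (fun k : ℕ => f^[n * k] w) Filter.atTop (nhds z)) ∧
        Filter.Tendsto (fun k : ℕ => f^[n * k] c) Filter.atTop (nhds z)

/-- The numerator `X ^ N + a (N - 1) X ^ (N - 1) + … + a 0`. -/
noncomputable def numer {N : ℕ} (a : Fin N → ℂ) : ℂ[X] :=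
  X ^ N + ∑ k : Fin N, C (a k) * X ^ (k : ℕ)

/-- The denominator `1 + b (N - 1) X + … + b 0 X ^ N`. -/
noncomputable def denom {N : ℕ} (b : Fin N → ℂ) : ℂ[X] :=
  1 + ∑ k : Fin N, C (b k) * X ^ (N - (k : ℕ))

/-- The coefficient vectors of the numerators of degree `N` all of whose zeros lie in the closed
disc with centre `0` and radius `r`. -/
def ZerosInside (r : ℝ) (N : ℕ) : Set (Fin N → ℂ) :=
  {a | ∀ x : ℂ, (numer a).eval x = 0 → ‖x‖ ≤ r}

/-- The coefficient vectors of the denominators all of whose zeros (the finite poles of the map) lie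
outside the open disc with centre `0` and radius `R`. -/
def PolesOutside (R : ℝ) (N : ℕ) : Set (Fin N → ℂ) :=
  {b | ∀ x : ℂ, (denom b).eval x = 0 → R ≤ ‖x‖}

/-- Let `0 < r < R`, `r ≠ 1`, `R ≠ 1`, and `A ≥ 1`. There are `K` and `θ < 1` such that for every
degree `N ≥ 1`: the set of all pairs `(a, b)` of coefficient vectors of a numerator with all zeros in
the disc of radius `r` and a denominator with all zeros outside the disc of radius `R` has positive
finite volume `V` (Lebesgue measure on the `2 N` complex coefficients), and the pairs for which the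
rational map `α * numer a / denom b` of degree `N` is not hyperbolic for some complex `α` with
`1 / A ≤ ‖α‖ ≤ A` have volume at most `K θ ^ N V`. -/
theorem result :
    ∀ r R A : ℝ, 0 < r → r < R → r ≠ 1 → R ≠ 1 → 1 ≤ A →
      ∃ K θ : ℝ, 0 < K ∧ 0 < θ ∧ θ < 1 ∧ ∀ N : ℕ, 1 ≤ N →
        volume (ZerosInside r N ×ˢ PolesOutside R N) ≠ 0 ∧
        volume (ZerosInside r N ×ˢ PolesOutside R N) ≠ ⊤ ∧
        volume {x : (Fin N → ℂ) × (Fin N → ℂ) | x.1 ∈ ZerosInside r N ∧ x.2 ∈ PolesOutside R N ∧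
          ∃ α : ℂ, 1 / A ≤ ‖α‖ ∧ ‖α‖ ≤ A ∧ ¬ Hyperbolic (C α * numer x.1) (denom x.2)} ≤
          ENNReal.ofReal (K * θ ^ N) * volume (ZerosInside r N ×ˢ PolesOutside R N) := by
  have hAND := Pool.Agent.W349.CV.and
  have hHAD := Pool.Agent.W349.CV.had
  have hGRAM := Pool.Agent.W366.CV.gram hAND hHAD
  have hZN := Pool.Agent.W797.CV.main hAND
  have hPIW := Pool.Agent.W32.CV.piw
  have hL2 := Pool.Agent.W82.CV.l2_holds hZN
  have hSUP := Pool.Agent.W293.CV.t_sup
  have hNU := W349.CD.NU_holds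
  have hNEGIN := Pool.Agent.W156.CVNegIn.negin hNU hGRAM hPIW
  have hNEGOUT := Pool.Agent.W778.CV.negout hGRAM hPIW
  have hPOLY := Pool.Agent.W327.CV.poly_t
  have hAREA := Pool.Agent.W515.CV.Area.area hZN hNEGIN
  have hCB := Pool.Agent.W15.CV.cb hL2 hSUP
  have hCOEF := Pool.Agent.W253.CV.coef Pool.Agent.W293.CV.t_jac
  have hQE := Pool.Agent.W29.RV.qe
  have hW := Pool.Agent.W135.RV.proof_w
  have hNQ := Pool.Agent.W440.RV.nq hZN hNEGOUT hQE
  have hSQ := Pool.Agent.W74.RV.sq hZN hQE hNQ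
  have hUQ := Pool.Agent.W216.RV.uq hCB hQE
  have hSM := Pool.Agent.W366.RV.sm hZN hCB hSQ
  have hLC := Pool.Agent.W216.RV.lc hZN hCB hAREA hSQ hUQ Pool.Agent.W216.RV.sf
  have hCOEF2 := Pool.Agent.W641.RV.t_COEF2 hZN hCOEF
  have hMEAS := Pool.Agent.W191.RV.meas2
  intro r R A hr hrR hr1 hR1 hA
  have hR : 0 < R := hr.trans hrR
  have hσ : 0 < 1 / R := by positivity
  have hρσ : r * (1 / R) < 1 := by
    rw [mul_one_div, div_lt_one hR]; exact hrR
  have hσ1 : 1 / R ≠ 1 := by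
    intro h
    rw [div_eq_one_iff_eq hR.ne'] at h
    exact hR1 h.symm
  obtain ⟨K, θ, hK, hθ, hθ1, h⟩ := Pool.Agent.W751.RV.main hMEAS hCOEF2 hZN hW Pool.Agent.W308.RV.deta Pool.Agent.W469.RV.Det.detb
    Pool.Agent.W469.RV.Det.detc hSM hLC hQE hPOLY hr hσ hρσ hr1 hσ1 hA
  have e1 : ∀ N : ℕ, ZerosInside r N = Pool.Agent.W751.CV.Om 0 r N := by
    intro N
    ext a
    unfold ZerosInside Pool.Agent.W751.CV.Om
    simp only [Set.mem_setOf_eq, sub_zero]
    exact Iff.rfl
  have e2 : ∀ N : ℕ, PolesOutside R N = Pool.Agent.W751.CV.Om 0 (1 / R) N := by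
    intro N
    ext b
    exact (Pool.Agent.W751.RV.mem_Om_iff_den b hR).symm
  refine ⟨K, θ, hK, hθ, hθ1, fun N hN => ?_⟩
  have hV := Pool.Agent.W751.RV.vol_Om2 hCOEF2 hZN (N := N) hr hσ
  rw [e1, e2]
  refine ⟨hV.1, hV.2, (measure_mono ?_).trans (h N hN)⟩
  rintro x ⟨h1, h2, α, h3, h4, h5⟩
  exact ⟨h1, h2, α, h3, h4, h5⟩

end Pool.Agent.Results.MP_8f2e1c_an.RationalVolume
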