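import Mathlib
import Pool.Agent.W721.RD.FIB
import Pool.Agent.W721.RD.C2M
import Pool.Agent.W327.RD.Dyn
import Pool.Agent.W349.CD.NU

/-!
# Hyperbolicity in the family of the multiples of a rational map

For every rational map `R` of degree `N` (with `R 0`, `R ∞` different from `0`, `∞`) the map `a R` is
hyperbolic for all complex `a` outside a set of logarithmic area `O (√N log (N L))`.
-/

set_option autoImplicit false

open Polynomial Filter Topology MeasureTheory

namespace Pool.Agent.Results.MP_8f2e1c_an.ScalarMultiples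

/-- `P / Q` is in lowest terms and every critical point (point of the Riemann sphere where the map
is not locally injective) has an orbit converging to an attracting periodic cycle. This is word
for word the condition of the frozen statement `S05373`. -/
def Hyperbolic (P Q : Polynomial ℂ) : Prop :=
  IsCoprime P Q ∧ ∃ f : OnePoint ℂ → OnePoint ℂ, Continuous f ∧
    (∀ z : ℂ, Q.eval z ≠ 0 →
      f (OnePoint.some z) = OnePoint.some (P.eval z / Q.eval z)) ∧
    ∀ c : OnePoint ℂ, (¬ ∃ U ∈ nhds c, Set.InjOn f U) →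
      ∃ z : OnePoint ℂ, ∃ n : ℕ, 0 < n ∧ f^[n] z = z ∧
        (∃ U ∈ nhds z, ∀ w ∈ U,
          Filter.Tendsto (fun k : ℕ => f^[n * k] w) Filter.atTop (nhds z)) ∧
        Filter.Tendsto (fun k : ℕ => f^[n * k] c) Filter.atTop (nhds z)

/-- The monic polynomial with roots `z i`. -/
noncomputable def withRoots {N : ℕ} (z : Fin N → ℂ) : ℂ[X] := ∏ i, (X - C (z i))

/-- Logarithmic area: the measure `dA(w) / |w| ^ 2` on the plane. It is invariant under all
multiplications `w ↦ b * w`, and the logarithmic area of the annulus `r ≤ |w| ≤ R` is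
`2 π log (R / r)`. -/
noncomputable def logArea : Measure ℂ :=
  (volume : Measure ℂ).withDensity (fun w => ENNReal.ofReal ((‖w‖ ^ 2)⁻¹))

/-- The moduli of all zeros `z i` and of all poles `p i` are nonzero and have ratios at most `L`. -/
def Comparable {N : ℕ} (L : ℝ) (z p : Fin N → ℂ) : Prop :=
  (∀ i, z i ≠ 0 ∧ p i ≠ 0) ∧ ∀ i j, ‖z i‖ ≤ L * ‖z j‖ ∧ ‖z i‖ ≤ L * ‖p j‖ ∧
    ‖p i‖ ≤ L * ‖z j‖ ∧ ‖p i‖ ≤ L * ‖p j‖

/-- For every `N ≥ 2` and every rational map `R (w) = ∏ (w - z i) / ∏ (w - p i)` of degree `N` whose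
zeros and poles have comparable moduli: (1) `a * R` is hyperbolic for all complex `a` outside a set
of logarithmic area (in the whole plane) at most `420 √N log (N L)`; (2) every annulus
`r ≤ |a| ≤ r * exp (70 √N log (N L))` contains `a` for which `a * R` is hyperbolic. -/
theorem result :
    ∀ N : ℕ, 2 ≤ N → ∀ (z p : Fin N → ℂ) (L : ℝ), Comparable L z p → (∀ i j, z i ≠ p j) →
      logArea {a : ℂ | ¬ Hyperbolic (C a * withRoots z) (withRoots p)} ≤
        ENNReal.ofReal (420 * Real.sqrt N * Real.log (N * L)) ∧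
      ∀ r : ℝ, 0 < r → ∃ a : ℂ, r ≤ ‖a‖ ∧ ‖a‖ ≤ r * Real.exp (70 * Real.sqrt N * Real.log (N * L)) ∧
        Hyperbolic (C a * withRoots z) (withRoots p) := by
  intro N hN z p L hL hzp
  have hNU := W349.CD.NU_holds
  have h1 : logArea {a : ℂ | ¬ Hyperbolic (C a * withRoots z) (withRoots p)} ≤
        ENNReal.ofReal (420 * Real.sqrt N * Real.log (N * L)) :=
    Pool.Agent.W721.RD.RFIB_holds hNU Pool.Agent.W721.RD.C2M_holds W327.RD.rdyn N hN z p L
      (fun i => (hL.1 i).1) (fun i => (hL.1 i).2) hzp hL.2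
  refine ⟨h1, fun r hr => ?_⟩
  by_contra hcon
  push Not at hcon
  have hN2 : (2 : ℝ) ≤ N := by exact_mod_cast hN
  have hN0 : (0 : ℝ) < N := by linarith
  have hL1 : 1 ≤ L := by
    have h := (hL.2 ⟨0, by omega⟩ ⟨0, by omega⟩).1
    have h0 : 0 < ‖z ⟨0, by omega⟩‖ := norm_pos_iff.2 (hL.1 _).1
    by_contra hc
    nlinarith
  have hlog : 0 < Real.log (N * L) := Real.log_pos (by nlinarith)
  have hs : 0 < Real.sqrt N := Real.sqrt_pos.2 hN0
  set T : ℝ := Real.sqrt N * Real.log (N * L) with hT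
  have hT0 : 0 < T := by positivity
  have e : (70 * Real.sqrt N * Real.log (N * L)) = 70 * T := by rw [hT]; ring
  have h2 : logArea {a : ℂ | r ≤ ‖a‖ ∧ ‖a‖ ≤ r * Real.exp (70 * T)} =
      ENNReal.ofReal (2 * Real.pi * (70 * T)) := by
    have h3 := hNU.1 r (r * Real.exp (70 * T)) hr
      (le_mul_of_one_le_right hr.le (Real.one_le_exp (by positivity)))
    rw [mul_div_cancel_left₀ _ hr.ne', Real.log_exp] at h3
    exact h3
  have h4 : logArea {a : ℂ | r ≤ ‖a‖ ∧ ‖a‖ ≤ r * Real.exp (70 * T)} ≤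
      ENNReal.ofReal (420 * T) := by
    refine (measure_mono ?_).trans (h1.trans (le_of_eq ?_))
    · intro a ha
      exact hcon a ha.1 (by rw [e]; exact ha.2)
    · congr 1
      rw [hT]; ring
  rw [h2, ENNReal.ofReal_le_ofReal_iff (by positivity)] at h4
  have hpi := Real.pi_gt_three
  nlinarith [mul_pos hT0 (by linarith : (0 : ℝ) < Real.pi - 3)]

end Pool.Agent.Results.MP_8f2e1c_an.ScalarMultiples
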