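import Mathlib
import Pool.Agent.W739.RC.Snk

/-! Compositions of `p` small perturbations of a rational map with an attracting cycle: all but an
exponentially small proportion of them are hyperbolic. -/

set_option autoImplicit false

open Topology Filter MeasureTheory Polynomial

namespace Pool.Agent.Results.MP_8f2e1c_an.ZCompositionsMeasure

/-- `f` is the rational map `P / Q`, in lowest terms and of degree `d`, on the Riemann sphere. -/
def IsRationalMap (d : ℕ) (P Q : ℂ[X]) (f : OnePoint ℂ → OnePoint ℂ) : Prop :=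
  IsCoprime P Q ∧ max P.natDegree Q.natDegree = d ∧ Continuous f ∧
    ∀ z : ℂ, Q.eval z ≠ 0 → f (OnePoint.some z) = OnePoint.some (P.eval z / Q.eval z)

/-- `a` is a point of an attracting cycle of `f` whose period divides `n`: `f^n` fixes `a` and the
iterates of `f^n` converge to `a` uniformly on a neighbourhood of `a`. -/
def IsSink (f : OnePoint ℂ → OnePoint ℂ) (n : ℕ) (a : OnePoint ℂ) : Prop :=
  0 < n ∧ f^[n] a = a ∧
    ∃ U ∈ nhds a, ∀ V ∈ nhds a, ∀ᶠ k : ℕ in Filter.atTop, ∀ w ∈ U, f^[n * k] w ∈ V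

/-- All critical points of `g` (points where `g` is not locally injective) are attracted by
attracting cycles: word for word the condition of the frozen statement S05373. -/
def Hyperbolic (g : OnePoint ℂ → OnePoint ℂ) : Prop :=
  ∀ c : OnePoint ℂ, (¬ ∃ U ∈ nhds c, Set.InjOn g U) →
    ∃ z : OnePoint ℂ, ∃ n : ℕ, 0 < n ∧ g^[n] z = z ∧
      (∃ U ∈ nhds z, ∀ w ∈ U,
        Filter.Tendsto (fun k : ℕ => g^[n * k] w) Filter.atTop (nhds z)) ∧
      Filter.Tendsto (fun k : ℕ => g^[n * k] c) Filter.atTop (nhds z)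

/-- The composition `f (p - 1) ∘ ... ∘ f 1 ∘ f 0`. -/
def composition : (p : ℕ) → (Fin p → OnePoint ℂ → OnePoint ℂ) → OnePoint ℂ → OnePoint ℂ
  | 0, _ => id
  | p + 1, f => f (Fin.last p) ∘ composition p (fun k => f k.castSucc)

/-- The numerator of the composition of `P / Q` with the Möbius transformation of matrix `m`. -/
noncomputable def num (m : Fin 2 → Fin 2 → ℂ) (P Q : ℂ[X]) : ℂ[X] := C (m 0 0) * P + C (m 0 1) * Q

/-- The denominator of the composition of `P / Q` with the Möbius transformation of matrix `m`. -/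
noncomputable def den (m : Fin 2 → Fin 2 → ℂ) (P Q : ℂ[X]) : ℂ[X] := C (m 1 0) * P + C (m 1 1) * Q

/-- `p` matrices at distance less than `ε` from the identity matrix -/
def Close (p : ℕ) (ε : ℝ) (m : Fin p → Fin 2 → Fin 2 → ℂ) : Prop :=
  ∀ k i j, ‖m k i j - (if i = j then 1 else 0)‖ < ε

/-- The maps `f k = m k ∘ (P / Q)`, for `k = 0, ..., p - 1`, are rational maps of degree `d` and
their composition is hyperbolic. -/
def HyperbolicComposition (d : ℕ) (P Q : ℂ[X]) (p : ℕ) (m : Fin p → Fin 2 → Fin 2 → ℂ) : Prop :=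
  ∃ f : Fin p → OnePoint ℂ → OnePoint ℂ,
    (∀ k, IsRationalMap d (num (m k) P Q) (den (m k) P Q) (f k)) ∧ Hyperbolic (composition p f)

open Pool.Agent.H790R3.RB Pool.Agent.W739.RC in
theorem bridge {d : ℕ} (hd : 1 ≤ d) {x : CV d} (hx : ND x) {M : E2} (hM : dt M ≠ 0) :
    IsRationalMap d (num M (pol x 0) (pol x 1)) (den M (pol x 0) (pol x 1)) (sp (mx M x)) := by
  have hpol : ∀ i : Fin 2, pol (mx M x) i = C (M i 0) * pol x 0 + C (M i 1) * pol x 1 := by
    intro i
    unfold pol mx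
    simp only [Finset.mul_sum, ← Finset.sum_add_distrib]
    refine Finset.sum_congr rfl fun j _ => ?_
    rw [← C_mul_X_pow_eq_monomial, ← C_mul_X_pow_eq_monomial, ← C_mul_X_pow_eq_monomial, C_add,
      C_mul, C_mul]
    ring
  have hnd := nd_mx hM hx
  obtain ⟨h1, h2, -, -, h3⟩ := (PQ SP d hd).1 (mx M x) hnd
  have e0 : num M (pol x 0) (pol x 1) = pol (mx M x) 0 := (hpol 0).symm
  have e1 : den M (pol x 0) (pol x 1) = pol (mx M x) 1 := (hpol 1).symm
  rw [e0, e1]
  exact ⟨h1, h2, SP.sp_cont hnd, h3⟩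

open Pool.Agent.H790R3.RB Pool.Agent.W739.RC in
theorem comp_eq {d : ℕ} (x : CV d) (p : ℕ) (m : Fin p → E2) :
    composition p (fun k => sp (mx (m k) x)) = Sg x (List.ofFn m) := by
  induction p with
  | zero => rfl
  | succ p ih =>
    funext z
    rw [List.ofFn_succ', List.concat_eq_append, Sg_append]
    show sp (mx (m (Fin.last p)) x) (composition p (fun k => sp (mx (m k.castSucc) x)) z) = _
    rw [ih]
    rfl

open Pool.Agent.H790R3.RB Pool.Agent.W739.RC in
theorem close_iff {p : ℕ} {ε : ℝ} (hε : 0 < ε) (m : Fin p → E2) :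
    Close p ε m ↔ ∀ k, m k ∈ Bl ε := by
  unfold Close Bl
  refine forall_congr' fun k => ?_
  rw [Set.mem_ofPred_eq, pi_norm_lt_iff hε]
  refine forall_congr' fun i => ?_
  rw [pi_norm_lt_iff hε]
  rfl

open Pool.Agent.H790R3.RB Pool.Agent.W739.RC in
/-- Let `f = P / Q` be a rational map of degree `d ≥ 2` with an attracting cycle. For all
sufficiently small `ε` the proportion of the `p`-tuples of matrices at distance less than `ε` from
the identity matrix for which the composition of the `p` rational maps `m k ∘ f` is not hyperbolic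
is exponentially small in `p`. -/
theorem result (d : ℕ) (hd : 2 ≤ d) (P Q : ℂ[X]) (f : OnePoint ℂ → OnePoint ℂ)
    (hf : IsRationalMap d P Q f) (hatt : ∃ (n : ℕ) (a : OnePoint ℂ), IsSink f n a) :
    ∃ ε₀ : ℝ, 0 < ε₀ ∧ ∀ ε : ℝ, 0 < ε → ε ≤ ε₀ →
      ∃ C c : ℝ, 0 < c ∧ ∀ p : ℕ, 1 ≤ p →
        volume {m : Fin p → Fin 2 → Fin 2 → ℂ | Close p ε m ∧ ¬ HyperbolicComposition d P Q p m} ≤
          ENNReal.ofReal (C * Real.exp (-c * p)) *
            volume {m : Fin p → Fin 2 → Fin 2 → ℂ | Close p ε m} := by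
  have hd1 : 1 ≤ d := by omega
  obtain ⟨x, hx, hx0, hx1, hfe⟩ := (PQ SP d hd1).2 P Q hf.1 hf.2.1
  have hfx : f = sp x := hfe f hf.2.2.1 hf.2.2.2
  have hyp : ∀ (p : ℕ) (m : Fin p → E2), (∀ k, m k ∈ Bl (1 / 2)) → HypTop (Sg x (List.ofFn m)) →
      HyperbolicComposition d P Q p m := by
    intro p m hm h
    refine ⟨fun k => sp (mx (m k) x), fun k => ?_, ?_⟩
    · have := bridge hd1 hx (dt_ne (hm k))
      rwa [hx0, hx1] at this
    · rw [comp_eq]
      exact h
  obtain ⟨n, a, hna⟩ := hatt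
  have hs : Sink (sp x) n a := by rw [← hfx]; exact hna
  obtain ⟨ε₀, hε₀, hII⟩ := sink_II hd hx hs
  refine ⟨min ε₀ (1 / 2), by positivity, fun ε hε hεε => ?_⟩
  have hε1 : ε ≤ 1 / 2 := hεε.trans (min_le_right _ _)
  obtain ⟨C, c, hc, hC⟩ := main2 hd hx hε hε1 (hII ε (hεε.trans (min_le_left _ _)))
  refine ⟨C, c, hc, fun p hp => ?_⟩
  obtain ⟨q, rfl⟩ : ∃ q, p = q + 1 := ⟨p - 1, by omega⟩
  have h1 : {m : Fin (q + 1) → Fin 2 → Fin 2 → ℂ | Close (q + 1) ε m} =
      Set.univ.pi fun _ => Bl ε := by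
    ext m
    simp only [Set.mem_ofPred_eq, Set.mem_pi, Set.mem_univ, true_imp_iff]
    exact close_iff hε m
  have h2 : {m : Fin (q + 1) → Fin 2 → Fin 2 → ℂ | Close (q + 1) ε m ∧
      ¬ HyperbolicComposition d P Q (q + 1) m} ⊆
      {ω : Fin (q + 1) → E2 | (∀ i, ω i ∈ Bl ε) ∧ ¬ HypTop (Sg x (List.ofFn ω))} := by
    rintro m ⟨hm, hnh⟩
    have hm' := (close_iff hε m).1 hm
    refine ⟨hm', fun h => hnh (hyp _ m (fun k => lt_of_lt_of_le (hm' k) hε1) h)⟩
  refine (measure_mono h2).trans ((hC q).trans (le_of_eq ?_))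
  rw [h1, volume_pi_pi, Finset.prod_const, Finset.card_univ, Fintype.card_fin]

end Pool.Agent.Results.MP_8f2e1c_an.ZCompositionsMeasure
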